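import Pool.Agent.helper52.HY.Spec

/-!
# Project hy: (MP_af9036_an), module `EXP`: exponential growth
-/

set_option autoImplicit false

open Complex Metric Set Filter Topology MeasureTheory
open Pool.Agent.helper98.ILF Pool.Agent.helper16.Multibrot

noncomputable section

namespace HY

theorem EXP_diff (n : ℕ) (c : ℂ) (k : ℕ) : Differentiable ℂ ((fz n c)^[k]) := by
  have h : Differentiable ℂ (fz n c) := by
    unfold fz
    fun_prop
  exact h.iterate k

theorem EXP_chain (n : ℕ) (c : ℂ) (i j : ℕ) (z : ℂ) :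
    deriv ((fz n c)^[i + j]) z = deriv ((fz n c)^[i]) ((fz n c)^[j] z) * deriv ((fz n c)^[j]) z := by
  rw [Function.iterate_add]
  exact deriv_comp z ((EXP_diff n c i) _) ((EXP_diff n c j) z)

theorem EXP_one (n : ℕ) (c z : ℂ) : ‖deriv ((fz n c)^[1]) z‖ = n * ‖z‖ ^ (n - 1) := by
  rw [Function.iterate_one]
  have h : deriv (fz n c) z = n * z ^ (n - 1) := by
    unfold fz
    rw [deriv_add_const, deriv_pow_field]
  rw [h, norm_mul, norm_pow, Complex.norm_natCast]

theorem EXP_low (n : ℕ) (c : ℂ) (hn : 2 ≤ n) (ε a : ℝ) (hε : 0 < ε) (ha0 : 0 ≤ a)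
    (ha : a ≤ n * ε ^ (n - 1)) (z : ℂ) : ∀ s : ℕ, (∀ i < s, ε ≤ ‖(fz n c)^[i] z‖) →
    a ^ s ≤ ‖deriv ((fz n c)^[s]) z‖ := by
  intro s
  induction s with
  | zero =>
    intro _
    rw [pow_zero, Function.iterate_zero, deriv_id, norm_one]
  | succ s ih =>
    intro h
    have h1 := ih fun i hi => h i (by omega)
    rw [Nat.add_comm s 1, EXP_chain, norm_mul, pow_add, pow_one, EXP_one]
    refine mul_le_mul (ha.trans ?_) h1 (by positivity) (by positivity)
    exact mul_le_mul_of_nonneg_left (pow_le_pow_left₀ hε.le (h s (by omega)) _) (by positivity)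

theorem EXP_fil (n : ℕ) (c z : ℂ) (hz : z ∈ filled n c) (j : ℕ) :
    (fz n c)^[j] z ∈ filled n c := by
  intro k
  have h1 : (fun z : ℂ => z ^ n + c)^[k] ((fz n c)^[j] z) =
      (fun z : ℂ => z ^ n + c)^[k + j] z := by
    rw [Function.iterate_add_apply]
    rfl
  rw [h1]
  exact hz (k + j)

theorem EXP (hGRO : GRO_stmt) : EXP_stmt := by
  intro n hn c hc hcH ε hε
  obtain ⟨N₀, hN₀⟩ := hGRO n hn c hc hcH ε hε 2
  obtain ⟨N, hN1, hN⟩ : ∃ N : ℕ, 1 ≤ N ∧ N₀ ≤ N := ⟨max N₀ 1, le_max_right _ _, le_max_left _ _⟩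
  have hn0 : (0 : ℝ) < n := by exact_mod_cast (show 0 < n by omega)
  obtain ⟨a, ha0, ha1, ha⟩ : ∃ a > (0 : ℝ), a ≤ 1 ∧ a ≤ n * ε ^ (n - 1) :=
    ⟨min 1 (n * ε ^ (n - 1)), by positivity, min_le_left _ _, min_le_right _ _⟩
  obtain ⟨θ, hθ1, hθN⟩ : ∃ θ > (1 : ℝ), θ ^ N = 2 := by
    refine ⟨(2 : ℝ) ^ ((1 : ℝ) / N), Real.one_lt_rpow (by norm_num) (by positivity), ?_⟩
    rw [← Real.rpow_natCast, ← Real.rpow_mul (by norm_num)]
    have : (1 : ℝ) / N * N = 1 := by
      have h : (N : ℝ) ≠ 0 := by exact_mod_cast (show N ≠ 0 by omega)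
      field_simp
    rw [this, Real.rpow_one]
  have key : ∀ (q s : ℕ), ∀ z ∈ filled n c, (∀ i < q * N + s, ε ≤ ‖(fz n c)^[i] z‖) →
      2 ^ q * a ^ s ≤ ‖deriv ((fz n c)^[q * N + s]) z‖ := by
    intro q s
    induction q with
    | zero =>
      intro z _ h
      rw [zero_mul, zero_add] at h ⊢
      rw [pow_zero, one_mul]
      exact EXP_low n c hn ε a hε ha0.le ha z s h
    | succ q ih =>
      intro z hz h
      have h1 := ih ((fz n c)^[N] z) (EXP_fil n c z hz N) (by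
        intro i hi
        rw [← Function.iterate_add_apply]
        exact h (i + N) (by
          rw [add_mul, one_mul]
          omega))
      have h2 := hN₀ N hN z hz fun i hi => h i (by
        rw [add_mul, one_mul]
        omega)
      have h3 : (q + 1) * N + s = (q * N + s) + N := by ring
      rw [h3, EXP_chain, norm_mul]
      calc (2 : ℝ) ^ (q + 1) * a ^ s = (2 ^ q * a ^ s) * 2 := by ring
        _ ≤ _ := mul_le_mul h1 h2.le (by norm_num) (norm_nonneg _)
  refine ⟨a ^ N / 2, by positivity, θ, hθ1, fun j z hz h => ?_⟩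
  have hj : j / N * N + j % N = j := Nat.div_add_mod' j N
  have h1 := key (j / N) (j % N) z hz (by rw [hj]; exact h)
  rw [hj] at h1
  have hs : j % N < N := Nat.mod_lt _ (by omega)
  have h2 : θ ^ j ≤ 2 ^ (j / N) * 2 := by
    have h3 : j ≤ N * (j / N + 1) := by
      rw [Nat.mul_add, Nat.mul_one, Nat.mul_comm]
      omega
    calc θ ^ j ≤ θ ^ (N * (j / N + 1)) := pow_le_pow_right₀ hθ1.le h3
      _ = 2 ^ (j / N) * 2 := by rw [pow_mul, hθN, pow_succ]
  have h4 : a ^ N ≤ a ^ (j % N) := pow_le_pow_of_le_one ha0.le ha1 hs.le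
  calc a ^ N / 2 * θ ^ j ≤ a ^ N / 2 * (2 ^ (j / N) * 2) :=
        mul_le_mul_of_nonneg_left h2 (by positivity)
    _ = 2 ^ (j / N) * a ^ N := by ring
    _ ≤ 2 ^ (j / N) * a ^ (j % N) := mul_le_mul_of_nonneg_left h4 (by positivity)
    _ ≤ _ := h1

end HY
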